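import Mathlib

set_option autoImplicit false

namespace Pool.Agent.Results.MP_9c76b4_al.Counter

open Filter Topology

abbrev HH : Type := ℕ → ZMod 2

def GG : Type := HH →₀ ℤ

noncomputable instance : AddCommGroup GG := inferInstanceAs (AddCommGroup (HH →₀ ℤ))

noncomputable def ff : GG →+ HH := (Finsupp.linearCombination ℤ (fun h : HH => h)).toAddMonoidHom

def co (x : GG) (s : HH) : ℤ := (show HH →₀ ℤ from x) s

def W (k : HH → ℕ) (n : ℕ) : AddSubgroup GG where
  carrier := {x | (∀ s, (3:ℤ) ^ k s ∣ co x s) ∧ ∀ i < n, ff x i = 0}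
  zero_mem' := ⟨fun s => dvd_zero _, fun i _ => by simp⟩
  add_mem' := by
    rintro a b ⟨a1, a2⟩ ⟨b1, b2⟩
    exact ⟨fun s => dvd_add (a1 s) (b1 s), fun i hi => by simp [a2 i hi, b2 i hi]⟩
  neg_mem' := by
    rintro a ⟨a1, a2⟩
    exact ⟨fun s => (dvd_neg).2 (a1 s), fun i hi => by simp [a2 i hi]⟩

@[reducible] noncomputable def basis : AddGroupFilterBasis GG where
  sets := {U | ∃ k n, U = W k n}
  nonempty := ⟨_, 0, 0, rfl⟩
  inter_sets := by
    rintro _ _ ⟨k, n, rfl⟩ ⟨k', n', rfl⟩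
    refine ⟨_, ⟨fun s => max (k s) (k' s), max n n', rfl⟩, ?_⟩
    rintro x ⟨h1, h2⟩
    exact ⟨⟨fun s => (pow_dvd_pow _ (le_max_left _ _)).trans (h1 s),
      fun i hi => h2 i (lt_of_lt_of_le hi (le_max_left _ _))⟩,
      ⟨fun s => (pow_dvd_pow _ (le_max_right _ _)).trans (h1 s),
      fun i hi => h2 i (lt_of_lt_of_le hi (le_max_right _ _))⟩⟩
  zero' := by rintro _ ⟨k, n, rfl⟩; exact (W k n).zero_mem
  add' := by
    rintro _ ⟨k, n, rfl⟩
    refine ⟨_, ⟨k, n, rfl⟩, ?_⟩
    rintro _ ⟨a, ha, b, hb, rfl⟩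
    exact (W k n).add_mem ha hb
  neg' := by
    rintro _ ⟨k, n, rfl⟩
    exact ⟨_, ⟨k, n, rfl⟩, fun a ha => (W k n).neg_mem ha⟩
  conj' := by
    rintro x _ ⟨k, n, rfl⟩
    exact ⟨_, ⟨k, n, rfl⟩, fun a ha => by simpa using ha⟩

noncomputable instance : TopologicalSpace GG := basis.topology

instance : IsTopologicalAddGroup GG := basis.isTopologicalAddGroup

theorem mem_nhds_iff' (U : Set GG) : U ∈ 𝓝 (0 : GG) ↔ ∃ k n, (W k n : Set GG) ⊆ U := by
  rw [basis.nhds_zero_hasBasis.mem_iff]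
  constructor
  · rintro ⟨_, ⟨k, n, rfl⟩, h⟩; exact ⟨k, n, h⟩
  · rintro ⟨k, n, h⟩; exact ⟨_, ⟨k, n, rfl⟩, h⟩

theorem exists_not_dvd (a : ℤ) (ha : a ≠ 0) : ∃ k : ℕ, ¬ (3:ℤ) ^ k ∣ a := by
  refine ⟨a.natAbs, fun h => ?_⟩
  have h1 := Int.le_of_dvd (abs_pos.2 ha) ((dvd_abs _ _).2 h)
  have h2 : a.natAbs < 3 ^ a.natAbs := Nat.lt_pow_self (by norm_num)
  have h3 : (a.natAbs : ℤ) < 3 ^ a.natAbs := by exact_mod_cast h2
  rw [Int.natCast_natAbs] at h3
  linarith

instance : T2Space GG := by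
  apply IsTopologicalAddGroup.t2Space_of_zero_sep
  intro x hx
  obtain ⟨s, hs⟩ : ∃ s, co x s ≠ 0 := by
    by_contra h
    push Not at h
    exact hx (Finsupp.ext h)
  obtain ⟨k, hk⟩ := exists_not_dvd _ hs
  exact ⟨W (fun _ => k) 0, (mem_nhds_iff' _).2 ⟨_, _, subset_rfl⟩, fun h => hk (h.1 s)⟩

theorem cyl_mem (n : ℕ) : {h : HH | ∀ i < n, h i = 0} ∈ 𝓝 (0 : HH) := by
  have : {h : HH | ∀ i < n, h i = 0} = ⋂ i ∈ Finset.range n, {h : HH | h i = 0} := by
    ext h; simp
  rw [this, Filter.biInter_finset_mem]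
  intro i _
  have ho : IsOpen ((fun h : HH => h i) ⁻¹' {(0 : ZMod 2)}) :=
    (isOpen_discrete _).preimage (continuous_apply i)
  exact ho.mem_nhds rfl

theorem ff_cont : Continuous ff := by
  apply continuous_of_continuousAt_zero
  rw [ContinuousAt, map_zero, tendsto_pi_nhds]
  intro i
  refine tendsto_const_nhds.congr' ?_
  filter_upwards [(mem_nhds_iff' _).2 ⟨0, i + 1, subset_rfl⟩] with x hx
  exact (hx.2 i (Nat.lt_succ_self i)).symm

theorem ff_single (h : HH) (k : ℕ) : ff (Finsupp.single h (3 ^ k)) = h := by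
  show Finsupp.linearCombination ℤ (fun h : HH => h) (Finsupp.single h (3 ^ k)) = h
  rw [Finsupp.linearCombination_single]
  funext i
  simp only [Pi.smul_apply, zsmul_eq_mul]
  push_cast
  rw [show (3 : ZMod 2) = 1 from rfl, one_pow, one_mul]

theorem ff_open : IsOpenMap ff := by
  rw [IsTopologicalAddGroup.isOpenMap_iff_nhds_zero]
  intro U hU
  obtain ⟨k, n, h⟩ := (mem_nhds_iff' _).1 hU
  refine mem_of_superset (cyl_mem n) fun x hx => ?_
  have : (Finsupp.single x (3 ^ k x) : GG) ∈ W k n := by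
    refine ⟨fun s => ?_, fun i hi => by rw [ff_single]; exact hx i hi⟩
    by_cases hs : s = x
    · subst hs; simp [co]
    · simp [co, Finsupp.single_eq_of_ne hs]
  have h2 : ff (Finsupp.single x (3 ^ k x)) ∈ U := h this
  rwa [ff_single] at h2

theorem no_section (s : HH → GG) (hs : ∀ h, ff (s h) = h) (h0 : s 0 = 0) :
    ¬ ContinuousAt (fun p : HH × HH => s p.1 + s p.2 - s (p.1 + p.2)) (0, 0) := by
  classical
  intro hc
  let e : ℕ → HH := fun n => Pi.single n 1
  have he : Tendsto e atTop (𝓝 0) := by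
    rw [tendsto_pi_nhds]
    intro i
    refine tendsto_const_nhds.congr' ?_
    filter_upwards [eventually_gt_atTop i] with n hn
    simp [e, Pi.single_eq_of_ne hn.ne]
  have hee : ∀ n, e n + e n = 0 := fun n => by
    funext i
    exact CharTwo.add_self_eq_zero _
  have ht : Tendsto (fun n => s (e n) + s (e n)) atTop (𝓝 0) := by
    have := hc.tendsto.comp (he.prodMk_nhds he)
    simpa [Function.comp_def, hee, h0] using this
  have hk : ∀ a : HH, ∃ k : ℕ, ∀ hx : ∃ n, co (s (e n)) a ≠ 0,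
      ¬ (3:ℤ) ^ k ∣ co (s (e (Nat.find hx))) a + co (s (e (Nat.find hx))) a := by
    intro a
    by_cases hx : ∃ n, co (s (e n)) a ≠ 0
    · have := Nat.find_spec hx
      obtain ⟨k, hk⟩ := exists_not_dvd (co (s (e (Nat.find hx))) a + co (s (e (Nat.find hx))) a) (by omega)
      exact ⟨k, fun _ => hk⟩
    · exact ⟨0, fun h => absurd h hx⟩
  choose k hk using hk
  obtain ⟨N, hN⟩ := eventually_atTop.1 (ht.eventually ((mem_nhds_iff' _).2 ⟨k, 0, subset_rfl⟩))
  let F : Finset HH := (Finset.range N).biUnion fun n => (show HH →₀ ℤ from s (e n)).support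
  have hF : ∀ n, (show HH →₀ ℤ from s (e n)).support ⊆ F := by
    intro n a ha
    have hx : ∃ n, co (s (e n)) a ≠ 0 := ⟨n, Finsupp.mem_support_iff.1 ha⟩
    have hlt : Nat.find hx < N := by
      by_contra hge
      exact hk a hx ((hN _ (not_lt.1 hge)).1 a)
    exact Finset.mem_biUnion.2 ⟨_, Finset.mem_range.2 hlt, Finsupp.mem_support_iff.2 (Nat.find_spec hx)⟩
  have hspan : ∀ n, e n ∈ Submodule.span (ZMod 2) (F : Set HH) := by
    intro n
    rw [← hs (e n)]
    show ∑ a ∈ (show HH →₀ ℤ from s (e n)).support, co (s (e n)) a • a ∈ _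
    refine Submodule.sum_mem _ fun a ha => ?_
    exact zsmul_mem (Submodule.subset_span (hF n ha)) _
  have hfin : Finite (Submodule.span (ZMod 2) (F : Set HH)) := Module.finite_of_finite (ZMod 2)
  have hinj : Function.Injective fun n => (⟨e n, hspan n⟩ : Submodule.span (ZMod 2) (F : Set HH)) := by
    intro n m h
    have h1 : e n n = e m n := congrFun (congrArg Subtype.val h) n
    by_contra hne
    simp [e, Pi.single_eq_of_ne hne] at h1
  exact not_injective_infinite_finite _ hinj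

theorem result : ∃ (G H : Type) (_ : AddCommGroup G) (_ : TopologicalSpace G)
    (_ : IsTopologicalAddGroup G) (_ : AddCommGroup H) (_ : TopologicalSpace H)
    (_ : IsTopologicalAddGroup H) (f : G →+ H),
    T2Space G ∧ T2Space H ∧ Continuous f ∧ IsOpenMap f ∧ Function.Surjective f ∧
    ∀ s : H → G, (∀ h, f (s h) = h) → s 0 = 0 →
      ¬ ContinuousAt (fun p : H × H => s p.1 + s p.2 - s (p.1 + p.2)) (0, 0) :=
  ⟨GG, HH, inferInstance, inferInstance, inferInstance, inferInstance, inferInstance, inferInstance,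
    ff, inferInstance, inferInstance, ff_cont, ff_open, fun h => ⟨_, ff_single h 0⟩, no_section⟩

end Pool.Agent.Results.MP_9c76b4_al.Counter
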